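import Pool.Agent.helper36.HK.Spec

set_option autoImplicit false

/-!
# MP_ad8ced: row TVL (variation along a line)
-/

namespace Pool.Agent.HK

open Finset Pool.Agent.FI

/-- The chord is shorter than the arc. -/
theorem TVL_exp (A B : ℝ) : ‖Complex.exp ((A : ℂ) * Complex.I) -
    Complex.exp ((B : ℂ) * Complex.I)‖ ≤ |A - B| := by
  have h1 : Complex.exp ((A : ℂ) * Complex.I) - Complex.exp ((B : ℂ) * Complex.I) =
      Complex.exp (Complex.I * (B : ℝ)) * (Complex.exp (Complex.I * ((A - B : ℝ) : ℂ)) - 1) := by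
    rw [mul_sub, ← Complex.exp_add, mul_one]
    have e1 : Complex.I * (B : ℂ) + Complex.I * ((A - B : ℝ) : ℂ) = (A : ℂ) * Complex.I := by
      push_cast
      ring
    rw [e1, mul_comm Complex.I (B : ℂ)]
  rw [h1, norm_mul, Complex.norm_exp_I_mul_ofReal, one_mul]
  exact Real.norm_exp_I_mul_ofReal_sub_one_le

/-- Telescoping over a finite set of integers. -/
theorem TVL_tel (P : ℤ → Prop) (g : ℤ → ℝ) (hm : ∀ a b : ℤ, a ≤ b → P a → P b → g a ≤ g b)
    (a : ℤ) (ha : P a) (S : Finset ℤ) : (∀ t ∈ S, P t ∧ P (t + 1) ∧ a ≤ t) →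
      ∀ b : ℤ, P b → a ≤ b → (∀ t ∈ S, t + 1 ≤ b) → ∑ t ∈ S, (g (t + 1) - g t) ≤ g b - g a := by
  induction S using Finset.induction_on_max with
  | empty =>
    intro _ b hb hab _
    rw [Finset.sum_empty]
    linarith [hm a b hab ha hb]
  | insert m S hlt ih =>
    intro hS b hb hab hSb
    have hmS : m ∉ S := fun hh => absurd (hlt m hh) (lt_irrefl m)
    rw [Finset.sum_insert hmS]
    obtain ⟨h1, h2, h3⟩ := hS m (Finset.mem_insert_self _ _)
    have h4 := ih (fun t ht => hS t (Finset.mem_insert_of_mem ht)) m h1 h3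
      (fun t ht => by
        have := hlt t ht
        omega)
    have h5 := hm (m + 1) b (hSb m (Finset.mem_insert_self _ _)) h2 hb
    linarith

/-- The variation over the inner points, increasing case. -/
theorem TVL_inc (P : ℤ → Prop) (g : ℤ → ℝ) (K : ℝ) (hK : 0 ≤ K) (hg : ∀ t, P t → |g t| ≤ K)
    (hm : ∀ a b : ℤ, a ≤ b → P a → P b → g a ≤ g b) (S : Finset ℤ)
    (hS : ∀ t ∈ S, P t ∧ P (t + 1)) : ∑ t ∈ S, |g (t + 1) - g t| ≤ 2 * K := by
  rcases S.eq_empty_or_nonempty with h0 | h0
  · rw [h0, Finset.sum_empty]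
    linarith
  · have h1 : ∑ t ∈ S, |g (t + 1) - g t| = ∑ t ∈ S, (g (t + 1) - g t) := by
      refine Finset.sum_congr rfl ?_
      intro t ht
      obtain ⟨h2, h3⟩ := hS t ht
      refine abs_of_nonneg ?_
      linarith [hm t (t + 1) (by omega) h2 h3]
    rw [h1]
    have ha := S.min'_mem h0
    have hb := S.max'_mem h0
    have h4 := TVL_tel P g hm (S.min' h0) (hS _ ha).1 S
      (fun t ht => ⟨(hS t ht).1, (hS t ht).2, S.min'_le t ht⟩) (S.max' h0 + 1) (hS _ hb).2
      (by
        have := S.min'_le _ hb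
        omega)
      (fun t ht => by
        have := S.le_max' t ht
        omega)
    have h5 := abs_le.mp (hg _ (hS _ ha).1)
    have h6 := abs_le.mp (hg _ (hS _ hb).2)
    linarith [h5.1, h6.2]

/-- The variation over the inner points. -/
theorem TVL_mon (P : ℤ → Prop) (g : ℤ → ℝ) (K : ℝ) (hK : 0 ≤ K) (hg : ∀ t, P t → |g t| ≤ K)
    (hm : (∀ a b : ℤ, a ≤ b → P a → P b → g a ≤ g b) ∨
      (∀ a b : ℤ, a ≤ b → P a → P b → g b ≤ g a)) (S : Finset ℤ)
    (hS : ∀ t ∈ S, P t ∧ P (t + 1)) : ∑ t ∈ S, |g (t + 1) - g t| ≤ 2 * K := by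
  rcases hm with h | h
  · exact TVL_inc P g K hK hg h S hS
  · have h1 := TVL_inc P (fun t => - g t) K hK (fun t ht => by
      rw [abs_neg]
      exact hg t ht) (fun a b hab ha hb => by
      have := h a b hab ha hb
      linarith) S hS
    refine le_trans (le_of_eq ?_) h1
    refine Finset.sum_congr rfl ?_
    intro t _
    rw [← abs_neg (-g (t + 1) - -g t)]
    congr 1
    ring

/-- Few boundary points. -/
theorem TVL_up (P : ℤ → Prop) (hP : ∀ a b c : ℤ, a ≤ b → b ≤ c → P a → P c → P b)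
    (S : Finset ℤ) (hS : ∀ t ∈ S, ¬ P t ∧ P (t + 1)) : S.card ≤ 1 := by
  rw [Finset.card_le_one]
  intro a ha b hb
  obtain ⟨a1, a2⟩ := hS a ha
  obtain ⟨b1, b2⟩ := hS b hb
  rcases lt_trichotomy a b with h | h | h
  · exact absurd (hP (a + 1) b (b + 1) (by omega) (by omega) a2 b2) b1
  · exact h
  · exact absurd (hP (b + 1) a (a + 1) (by omega) (by omega) b2 a2) a1

theorem TVL_down (P : ℤ → Prop) (hP : ∀ a b c : ℤ, a ≤ b → b ≤ c → P a → P c → P b)
    (S : Finset ℤ) (hS : ∀ t ∈ S, P t ∧ ¬ P (t + 1)) : S.card ≤ 1 := by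
  rw [Finset.card_le_one]
  intro a ha b hb
  obtain ⟨a1, a2⟩ := hS a ha
  obtain ⟨b1, b2⟩ := hS b hb
  rcases lt_trichotomy a b with h | h | h
  · exact absurd (hP a (a + 1) b (by omega) (by omega) a1 b1) a2
  · exact h
  · exact absurd (hP b (b + 1) a (by omega) (by omega) b1 a1) b2

theorem TVL : TVL_stmt := by
  classical
  intro P g κ K s hs hK hg hP hm S
  have hone : ∀ x : ℝ, ‖s * Complex.exp (κ * x * Complex.I)‖ ≤ 1 := by
    intro x
    have e1 : (κ : ℂ) * x * Complex.I = ((κ * x : ℝ) : ℂ) * Complex.I := by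
      push_cast
      ring
    rw [norm_mul, e1, Complex.norm_exp_ofReal_mul_I, mul_one]
    exact hs
  have hdiff : ∀ x y : ℝ, ‖s * Complex.exp (κ * x * Complex.I) -
      s * Complex.exp (κ * y * Complex.I)‖ ≤ |κ| * |x - y| := by
    intro x y
    have e1 : (κ : ℂ) * x * Complex.I = ((κ * x : ℝ) : ℂ) * Complex.I := by
      push_cast
      ring
    have e2 : (κ : ℂ) * y * Complex.I = ((κ * y : ℝ) : ℂ) * Complex.I := by
      push_cast
      ring
    rw [← mul_sub, norm_mul, e1, e2]
    have h1 := TVL_exp (κ * x) (κ * y)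
    rw [← mul_sub, abs_mul] at h1
    calc ‖s‖ * ‖Complex.exp (((κ * x : ℝ) : ℂ) * Complex.I) -
          Complex.exp (((κ * y : ℝ) : ℂ) * Complex.I)‖ ≤
        1 * ‖Complex.exp (((κ * x : ℝ) : ℂ) * Complex.I) -
          Complex.exp (((κ * y : ℝ) : ℂ) * Complex.I)‖ :=
          mul_le_mul_of_nonneg_right hs (norm_nonneg _)
      _ ≤ |κ| * |x - y| := by
          rw [one_mul]
          exact h1
  have hterm : ∀ t : ℤ, ‖(if P (t + 1) then s * Complex.exp (κ * g (t + 1) * Complex.I) else 0) -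
      (if P t then s * Complex.exp (κ * g t * Complex.I) else 0)‖ ≤
      (if P t ∧ P (t + 1) then |κ| * |g (t + 1) - g t| else 0) +
      ((if ¬ P t ∧ P (t + 1) then (1 : ℝ) else 0) + (if P t ∧ ¬ P (t + 1) then (1 : ℝ) else 0)) := by
    intro t
    by_cases h1 : P t
    · by_cases h2 : P (t + 1)
      · simp only [h1, h2, if_true, and_self, not_true_eq_false, and_true, and_false, if_false,
          add_zero]
        exact hdiff _ _
      · simp only [h1, h2, if_true, if_false, and_self, not_true_eq_false, not_false_eq_true,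
          and_true, and_false, zero_sub, norm_neg, zero_add]
        exact hone _
    · by_cases h2 : P (t + 1)
      · simp only [h1, h2, if_true, if_false, and_self, not_true_eq_false, not_false_eq_true,
          and_true, and_false, false_and, sub_zero, zero_add, add_zero]
        exact hone _
      · simp only [h1, h2, if_true, if_false, and_self, not_true_eq_false, not_false_eq_true,
          and_true, and_false, false_and, sub_zero, zero_add, add_zero, norm_zero, le_refl]
  refine le_trans (Finset.sum_le_sum (fun t _ => hterm t)) ?_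
  rw [Finset.sum_add_distrib, Finset.sum_add_distrib, ← Finset.sum_filter, ← Finset.sum_filter,
    ← Finset.sum_filter, ← Finset.mul_sum, Finset.sum_const, Finset.sum_const]
  have k1 := TVL_mon P g K hK hg hm (S.filter (fun t => P t ∧ P (t + 1)))
    (fun t ht => (Finset.mem_filter.mp ht).2)
  have k2 := TVL_up P hP (S.filter (fun t => ¬ P t ∧ P (t + 1)))
    (fun t ht => (Finset.mem_filter.mp ht).2)
  have k3 := TVL_down P hP (S.filter (fun t => P t ∧ ¬ P (t + 1)))
    (fun t ht => (Finset.mem_filter.mp ht).2)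
  have k2' : ((S.filter (fun t => ¬ P t ∧ P (t + 1))).card : ℝ) ≤ 1 := by exact_mod_cast k2
  have k3' : ((S.filter (fun t => P t ∧ ¬ P (t + 1))).card : ℝ) ≤ 1 := by exact_mod_cast k3
  have k4 := mul_le_mul_of_nonneg_left k1 (abs_nonneg κ)
  rw [nsmul_eq_mul, nsmul_eq_mul, mul_one, mul_one]
  linarith

end Pool.Agent.HK
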